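import Pool.Agent.helper63.NU.Level
import Pool.Agent.helper68.NU.Q3

set_option autoImplicit false

/-! Module Q3b: the finite level with the nearly optimal distribution (helper14, after
`Level.lean` by helper63). -/

open MeasureTheory Filter Topology Set
open scoped ContDiff Manifold Matrix ENNReal ComplexOrder

noncomputable section

namespace Pool.Agent.helper63.NU

section

variable {X : Type*} [MeasurableSpace X] {N : ℕ}

theorem E_main2 {μ : Measure X} [IsProbabilityMeasure μ] {n : ℕ} (hn : 0 < n) (hN : 0 < N)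
    {S : X → Fin N → ℂ} {D : X → ℝ} {θ m m' d d' : ℝ} {A0 : ℕ}
    (hS : ∀ c : Fin N → ℂ, Measurable fun x => ‖∑ j, c j * S x j‖) (hm : 0 < m)
    (hS1 : ∀ x, m ≤ ∑ j, ‖S x j‖ ^ 2) (hS2 : ∀ x, ∑ j, ‖S x j‖ ^ 2 ≤ m') (hθ : 0 < θ)
    (hD : Measurable D) (hd : 0 < d) (hD1 : ∀ x, d ≤ D x) (hD2 : ∀ x, D x ≤ d')
    (horth : ∀ i j, ∫ x, S x i * (starRingEnd ℂ) (S x j) * (D x : ℂ) ∂μ = if i = j then 1 else 0)
    (hcv : ∀ C : Matrix (Fin N) (Fin N) ℂ, IsUnit C.det → ConvexOn ℝ univ (FF μ θ S C))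
    (hjet : ∀ C : Matrix (Fin N) (Fin N) ℂ, IsUnit C.det → ∀ lam : Fin N → ℝ,
      ∃ (C' : Matrix (Fin N) (Fin N) ℂ)
      (σ : Equiv.Perm (Fin N)) (α : Fin N → Fin n → ℕ), IsUnit C'.det ∧ Function.Injective α ∧
      (∀ i β, β ≤ α i → ∃ j, α j = β) ∧ (∀ i j, C' i j ≠ 0 → lam (σ i) ≤ lam j) ∧
      (∀ i j, α i ≤ α j → lam (σ j) ≤ lam (σ i)) ∧ (∀ i, ∑ a, α i a ≤ A0) ∧
      ∃ K : ℝ, ∀ t ≥ (0 : ℝ), FF μ θ S (C' * C) (fun i => t * (∑ a, α i a : ℕ)) ≤ n * t + K)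
    {η : ℝ} (hη : 0 < η) :
    ∃ (B : Finset (Fin n → ℕ)) (g : (Fin n → ℕ) → ℝ), B.card = N ∧
      (∀ α ∈ B, ∀ β, β ≤ α → β ∈ B) ∧ (∀ α ∈ B, ∑ i, α i ≤ A0) ∧ (∀ α ∈ B, 0 ≤ g α) ∧
      ∑ α ∈ B, g α = 1 ∧ (∀ α ∈ B, ∀ β ∈ B, α ≤ β → g α ≤ g β) ∧
      ∑ α ∈ B, g α * (∑ i, (α i : ℝ)) ≤ (n + η) / θ ∧
      (∫ x, Real.log (D x * (∑ j, ‖S x j‖ ^ 2) ^ θ * (∫ x, (∑ j, ‖S x j‖ ^ 2) ^ (-θ) ∂μ)) *
        ((∑ j, ‖S x j‖ ^ 2) ^ (-θ) / (∫ x, (∑ j, ‖S x j‖ ^ 2) ^ (-θ) ∂μ)) ∂μ) + Real.log m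
        ≤ -∑ α ∈ B, g α * Real.log (g α) + η := by
  have key : ∀ C : Matrix (Fin N) (Fin N) ℂ, IsUnit C.det → _ := fun C hC =>
    slope_convex (hcv C hC) (L := θ) (FF_abs (μ := μ) hS hm hS1 hS2 hθ hC)
  refine optimize2 hn hN hθ A0 (fun C => slope (FF μ θ S C)) (fun C hC => (key C hC).2.2.1)
    (fun C hC => (key C hC).2.2.2.1) (fun C C' hC hC' lam lam' h => ?_) (fun C hC lam => ?_)
    (fun C hC lam => ?_) hη
  · have hCC : IsUnit (C' * C).det := by rw [Matrix.det_mul]; exact hC'.mul hC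
    exact slope_flag hS hm hS1 hS2 hθ hC hC' (hcv C hC) (hcv _ hCC) h
  · exact dv hN hS hm hS1 hS2 hθ hD hd hD1 hD2 horth hcv hC lam
  · obtain ⟨C', σ, α, hC', h1, h2, h3, h4, h5, K, hK⟩ := hjet C hC lam
    have hCC : IsUnit (C' * C).det := by rw [Matrix.det_mul]; exact hC'.mul hC
    refine ⟨C', σ, α, hC', h1, h2, h3, h4, h5, ?_⟩
    refine (key _ hCC).2.2.2.2.2 _ n K fun t ht => ?_
    have := hK t ht
    simpa [Pi.smul_def, smul_eq_mul] using this

end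

variable {n : ℕ} {M : Type*} [TopologicalSpace M] [ChartedSpace (E n) M]
  [IsManifold 𝓘(ℂ, E n) ω M]
variable [CompactSpace M] [T2Space M] [ConnectedSpace M]
variable [MeasurableSpace M] [BorelSpace M] {μ : Measure M} {φ : Fam n M ℝ}

/-- finite level: the nearly optimal distribution -/
theorem level2 [IsProbabilityMeasure μ] (hn : 0 < n) (hφ : IsPos 1 φ) (hμ : IsDens μ φ) {k N : ℕ}
    (hk : 1 ≤ k) (hN : 0 < N) {s : Fin N → Fam n M ℂ} (hs : IsONB μ φ k s)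
    {m m' : ℝ} (hm : 0 < m) (hm1 : ∀ x, m ≤ ∑ j, nrm k φ (s j) x)
    (hm2 : ∀ x, ∑ j, nrm k φ (s j) x ≤ m') {θ : ℝ} (hθ : 0 < θ) (hθk : θ * k < 1) {A0 : ℕ}
    (hA0 : ∀ e ∈ atlas (E n) M, ∀ p ∈ e.target, ∀ t ∈ H0 n M k, t ≠ 0 → ∀ m, VanO (t e) p m →
      m ≤ A0) {η : ℝ} (hη : 0 < η) :
    ∃ (B : Finset (Fin n → ℕ)) (g : (Fin n → ℕ) → ℝ), B.card = N ∧
      (∀ α ∈ B, ∀ β, β ≤ α → β ∈ B) ∧ (∀ α ∈ B, ∑ i, α i ≤ A0) ∧ (∀ α ∈ B, 0 ≤ g α) ∧
      ∑ α ∈ B, g α = 1 ∧ (∀ α ∈ B, ∀ β ∈ B, α ≤ β → g α ≤ g β) ∧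
      ∑ α ∈ B, g α * (∑ i, (α i : ℝ)) ≤ (n + η) / θ ∧
      (∫ x, Real.log (dl φ x * (∑ j, nrm k φ (s j) x) ^ θ *
        (∫ x, (∑ j, nrm k φ (s j) x) ^ (-θ) ∂μ)) *
        ((∑ j, nrm k φ (s j) x) ^ (-θ) / (∫ x, (∑ j, nrm k φ (s j) x) ^ (-θ) ∂μ)) ∂μ)
        + Real.log m ≤ -∑ α ∈ B, g α * Real.log (g α) + η := by
  haveI : Nonempty M := ConnectedSpace.toNonempty
  obtain ⟨hsH, horth, -⟩ := hs
  have hs : ∀ j, IsHol k (s j) := fun j => (hsH j).1
  have hw : IsWeight 1 φ := hφ.toIsWeight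
  have hsum : ∀ c : Fin N → ℂ, IsHol k (∑ j, c j • s j) := fun c =>
    IsHol.sum _ fun j _ => (hs j).smul (c j)
  have hnrmS : ∀ x, ∑ j, ‖uf k φ s x j‖ ^ 2 = ∑ j, nrm k φ (s j) x := fun x =>
    Finset.sum_congr rfl fun j _ => uf_norm_sq' k φ s j x
  have hmeas : ∀ c : Fin N → ℂ, Measurable fun x => ‖∑ j, c j * uf k φ s x j‖ := by
    intro c
    have h1 : (fun x => ‖∑ j, c j * uf k φ s x j‖)
        = fun x => Real.sqrt (nrm k φ (∑ j, c j • s j) x) := by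
      funext x
      rw [← uf_norm_sq, Real.sqrt_sq (norm_nonneg _)]
    rw [h1]
    exact (Real.continuous_sqrt.comp (continuous_nrm hw (hsum c).toIsSec)).measurable
  -- bounds of dl
  have hdlc := continuous_dl hφ
  obtain ⟨xm, -, hxm⟩ := isCompact_univ.exists_isMinOn (univ_nonempty (α := M)) hdlc.continuousOn
  obtain ⟨xM, -, hxM⟩ := isCompact_univ.exists_isMaxOn (univ_nonempty (α := M)) hdlc.continuousOn
  have hFF : ∀ (C : Matrix (Fin N) (Fin N) ℂ) (w : Fin N → ℝ), FF μ θ (uf k φ s) C w =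
      -Real.log (∫ x, (∑ i, Real.exp (w i) * nrm k φ (∑ j, C i j • s j) x) ^ (-θ) ∂μ) := by
    intro C w
    unfold FF
    congr 3
    funext x
    congr 1
    refine Finset.sum_congr rfl fun i _ => ?_
    rw [← uf_norm_sq]; rfl
  -- positivity for invertible matrices
  have hpos : ∀ C : Matrix (Fin N) (Fin N) ℂ, IsUnit C.det →
      ∀ x, 0 < ∑ i, nrm k φ (∑ j, C i j • s j) x := by
    intro C hC x
    have h0 : (0 : ℝ) < ∑ j, ‖uf k φ s x j‖ ^ 2 := by rw [hnrmS]; exact hm.trans_le (hm1 x)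
    have hne : C.mulVec (uf k φ s x) ≠ 0 := by
      intro h
      have h2 : uf k φ s x = 0 := by
        have := Matrix.eq_zero_of_mulVec_eq_zero hC.ne_zero h
        exact this
      rw [h2] at h0
      simp at h0
    have h3 : ∑ i, nrm k φ (∑ j, C i j • s j) x = ∑ i, ‖C.mulVec (uf k φ s x) i‖ ^ 2 := by
      refine Finset.sum_congr rfl fun i _ => ?_
      rw [← uf_norm_sq]; rfl
    rw [h3]
    obtain ⟨i, hi⟩ := Function.ne_iff.mp hne
    refine Finset.sum_pos' (fun _ _ => by positivity) ⟨i, Finset.mem_univ _, ?_⟩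
    have : 0 < ‖C.mulVec (uf k φ s x) i‖ := norm_pos_iff.mpr hi
    positivity
  have hcv : ∀ C : Matrix (Fin N) (Fin N) ℂ, IsUnit C.det →
      ConvexOn ℝ univ (FF μ θ (uf k φ s) C) := by
    intro C hC
    have h1 := ding_convex (s := fun i => ∑ j, C i j • s j) hφ hμ (fun i => hsum (C i))
      (hpos C hC) hθ hθk
    have h2 : FF μ θ (uf k φ s) C = fun w : Fin N → ℝ =>
      -Real.log (∫ x, (∑ i, Real.exp (w i) * nrm k φ (∑ j, C i j • s j) x) ^ (-θ) ∂μ) :=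
      funext (hFF C)
    rw [h2]; exact h1
  -- independence
  have hindep : ∀ c' : Fin N → ℂ, (∀ e' ∈ atlas (E n) M, ∀ y ∈ e'.target,
      (∑ j, c' j • s j : Fam n M ℂ) e' y = 0) → c' = 0 := by
    intro c' h1
    funext i
    have h3 : ∫ x, hp k φ (∑ j, c' j • s j) (s i) x * (dl φ x : ℂ) ∂μ = c' i := by
      have h4 : ∀ x, hp k φ (∑ j, c' j • s j) (s i) x * (dl φ x : ℂ)
          = ∑ j, c' j * (hp k φ (s j) (s i) x * (dl φ x : ℂ)) := by
        intro x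
        rw [hp_sum_left, Finset.sum_mul]
        refine Finset.sum_congr rfl fun j _ => by ring
      simp_rw [h4]
      rw [integral_finset_sum]
      · simp_rw [integral_const_mul, horth]
        simp
      · intro j _
        refine Integrable.const_mul ?_ _
        refine Continuous.integrable_of_hasCompactSupport ?_ (HasCompactSupport.of_compactSpace _)
        exact (continuous_hp hw (hs j).toIsSec (hs i).toIsSec).mul
          (Complex.continuous_ofReal.comp hdlc)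
    rw [← h3, Pi.zero_apply]
    refine integral_eq_zero_of_ae (Eventually.of_forall fun x => ?_)
    have h5 := h1 (chartAt (E n) x) (chart_mem_atlas _ x) (chartAt (E n) x x)
      ((chartAt (E n) x).map_source (mem_chart_source _ x))
    simp only [hp, h5, zero_mul, Pi.zero_apply]
  have hjet : ∀ C : Matrix (Fin N) (Fin N) ℂ, IsUnit C.det → ∀ lam : Fin N → ℝ,
      ∃ (C' : Matrix (Fin N) (Fin N) ℂ)
      (σ : Equiv.Perm (Fin N)) (α : Fin N → Fin n → ℕ), IsUnit C'.det ∧ Function.Injective α ∧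
      (∀ i β, β ≤ α i → ∃ j, α j = β) ∧ (∀ i j, C' i j ≠ 0 → lam (σ i) ≤ lam j) ∧
      (∀ i j, α i ≤ α j → lam (σ j) ≤ lam (σ i)) ∧ (∀ i, ∑ a, α i a ≤ A0) ∧
      ∃ K : ℝ, ∀ t ≥ (0 : ℝ), FF μ θ (uf k φ s) (C' * C) (fun i => t * (∑ a, α i a : ℕ))
        ≤ n * t + K := by
    intro C hC lam
    obtain ⟨x₀⟩ := (inferInstance : Nonempty M)
    set e := chartAt (E n) x₀ with he_def
    have he : e ∈ atlas (E n) M := chart_mem_atlas _ x₀
    set b : Fin N → E n → ℂ := fun i => (∑ j, C i j • s j : Fam n M ℂ) e with hb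
    have hind : ∀ V ⊆ e.target, IsOpen V → V.Nonempty → ∀ c : Fin N → ℂ,
        (∀ y ∈ V, ∑ j, c j * b j y = 0) → c = 0 := by
      intro V hVe hV hVne c hc
      set c' : Fin N → ℂ := fun j => ∑ i, c i * C i j with hc'
      have h1 : ∀ e' ∈ atlas (E n) M, ∀ y ∈ e'.target, (∑ j, c' j • s j : Fam n M ℂ) e' y = 0 := by
        refine (hsum c').eq_zero he hV hVne hVe fun y hy => ?_
        rw [← hc y hy]
        simp only [hb, hc', Finset.sum_apply, Pi.smul_apply, smul_eq_mul, Finset.sum_mul,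
          Finset.mul_sum]
        rw [Finset.sum_comm]
        refine Finset.sum_congr rfl fun i _ => Finset.sum_congr rfl fun j _ => by ring
      have h2 : c' = 0 := hindep c' h1
      have h6 : Matrix.vecMul c C = 0 := by
        funext j
        have := congrFun h2 j
        simpa [hc', Matrix.vecMul, dotProduct] using this
      exact Matrix.eq_zero_of_vecMul_eq_zero hC.ne_zero h6
    obtain ⟨p, hp, C', σ, α, hC', h1, h2, h3, h4, h5⟩ := jets e.open_target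
      ⟨e x₀, e.map_source (mem_chart_source _ x₀)⟩ b (fun i => (hsum (C i)).hol e he) hind lam
    have hCC : IsUnit (C' * C).det := by rw [Matrix.det_mul]; exact hC'.mul hC
    have hrw : ∀ i, ∀ y, (∑ j, (C' * C) i j • s j : Fam n M ℂ) e y = ∑ j, C' i j * b j y := by
      intro i y
      simp only [hb, Finset.sum_apply, Pi.smul_apply, smul_eq_mul, Matrix.mul_apply,
        Finset.sum_mul, Finset.mul_sum]
      rw [Finset.sum_comm]
      refine Finset.sum_congr rfl fun i _ => Finset.sum_congr rfl fun j _ => by ring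
    refine ⟨C', σ, α, hC', h1, h2, h3, h4, fun i => ?_, ?_⟩
    · refine hA0 e he p hp (∑ j, (C' * C) i j • s j) (Submodule.sum_mem _ fun j _ =>
        Submodule.smul_mem _ _ (hsH j)) (fun h0 => ?_) _ ?_
      · have h7 : (fun j => (C' * C) i j) = 0 := hindep _ fun e' _ y _ => by
          have := congrFun (congrFun h0 e') y
          simpa using this
        have h8 : Matrix.vecMul (Pi.single i 1) (C' * C) = 0 := by
          funext j
          have := congrFun h7 j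
          simpa using this
        have h9 := Matrix.eq_zero_of_vecMul_eq_zero hCC.ne_zero h8
        have := congrFun h9 i
        simp at this
      · obtain ⟨K, hK⟩ := h5 i
        refine ⟨K, ?_⟩
        filter_upwards [hK] with y hy
        rw [hrw]; exact hy
    obtain ⟨K, hK⟩ := jet_slope (s := fun i => ∑ j, (C' * C) i j • s j) (m := fun i => ∑ a, α i a)
      hφ hμ (fun i => hsum _) (hpos _ hCC) he hp (fun i => by
        obtain ⟨K, hK⟩ := h5 i
        refine ⟨K, ?_⟩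
        filter_upwards [hK] with y hy
        rw [hrw]; exact hy) hθ
    refine ⟨K, fun t ht => ?_⟩
    rw [hFF]
    exact hK t ht
  have := E_main2 (μ := μ) (A0 := A0) (S := uf k φ s) (D := dl φ) (m := m) (m' := m') (d := dl φ xm)
    (d' := dl φ xM) hn hN hmeas hm (fun x => by rw [hnrmS]; exact hm1 x)
    (fun x => by rw [hnrmS]; exact hm2 x) hθ hdlc.measurable (dl_pos hφ xm)
    (fun x => hxm (mem_univ x)) (fun x => hxM (mem_univ x))
    (fun i j => by simp_rw [uf_hp]; exact horth i j) hcv hjet hη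
  simp_rw [hnrmS] at this
  exact this


end Pool.Agent.helper63.NU
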